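import Mathlib

/-!
# SMITH with a Galois action on the 2-torsion (MP_48b749_nt, MP_950c68_ag): abstract structure

Version of `Lib/SmJ/Sys.lean` in which `G` acts on `V1` (= `J[2]`) through `ac`.

`G` = absolute Galois group of `K`, `V` = 2-power torsion of `J(Ω)`, `Pl` = places of `K`.
All cochains are plain functions `G → V`, `G → V1`, ...; a local cochain at `v` is a function on `G`
of which only the values on `S.D v` matter.  A 2-finite (twisted) cocycle on `D v` is determined by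
its values at `sg v` (tame generator) and `phi v` (Frobenius), see `Sys.Ok.gen`.
Unramified at a good place `v` means: value `0` at `S.sg v`.

`sy v` is the local pairing `H^1(K_v, V1) × H^1(K_v, V1) → ZMod 2` in terms of the pairs of values
at `sg v`, `phi v`; it only matters on the pairs of values of cocycles (`S.CP v`), outside it is
extended arbitrarily as a bilinear form.
-/

set_option autoImplicit false

namespace Pool.Agent.SmN

/-- `(-1)^a`. -/
def sgn (a : ZMod 2) : ℤ := if a = 0 then 1 else -1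

/-- The data. `NN` = a family of open normal subgroups of `G` (closed under intersection);
`D v` = decomposition group, `phi v` = Frobenius, `sg v` = tame generator, `eps v = (q_v - 1)/2`,
`iota` = the inclusion of the 2-torsion, `ac` = the action on it, `e` = the Weil pairing,
`sy v` = the local pairing, `good` = the good places (all but finitely many). -/
structure Sys (G V V1 Pl : Type*) [Group G] [AddCommGroup V] [DistribMulAction G V]
    [AddCommGroup V1] [Module (ZMod 2) V1] where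
  NN : Set (Subgroup G)
  D : Pl → Subgroup G
  phi : Pl → G
  sg : Pl → G
  eps : Pl → ZMod 2
  iota : V1 →+ V
  ac : G →* (V1 ≃ₗ[ZMod 2] V1)
  e : V1 →ₗ[ZMod 2] V1 →ₗ[ZMod 2] ZMod 2
  sy : Pl → (V1 × V1 →ₗ[ZMod 2] V1 × V1 →ₗ[ZMod 2] ZMod 2)
  good : Set Pl

section

variable {G V V1 Pl : Type*} [Group G] [AddCommGroup V] [DistribMulAction G V]
  [AddCommGroup V1] [Module (ZMod 2) V1]

/-- The twisted action `s * Q = (-1)^chi(s) s Q`. -/
def tw (chi : G → ZMod 2) (s : G) (Q : V) : V := sgn (chi s) • (s • Q)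

/-- The twisted coboundary of `Q`. -/
def dl (chi : G → ZMod 2) (Q : V) (s : G) : V := tw chi s Q - Q

namespace Sys

variable (S : Sys G V V1 Pl)

/-- `NN`-finite functions on `G`. -/
def TF {α : Type*} (f : G → α) : Prop := ∃ N ∈ S.NN, ∀ s, ∀ n ∈ N, f (s * n) = f s

/-- `NN`-finite functions on a subgroup `H` (values outside `H` irrelevant). -/
def TFOn {α : Type*} (H : Subgroup G) (f : G → α) : Prop :=
  ∃ N ∈ S.NN, ∀ s ∈ H, ∀ n ∈ N, n ∈ H → f (s * n) = f s

/-- `NN`-finite functions of two variables. -/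
def TF2 {α : Type*} (c : G → G → α) : Prop :=
  ∃ N ∈ S.NN, ∀ s t, ∀ n ∈ N, ∀ m ∈ N, c (s * n) (t * m) = c s t

/-- `Hom(G, A)` (trivial action). -/
def HomG {A : Type*} [AddCommGroup A] (c : G → A) : Prop :=
  S.TF c ∧ ∀ s t, c (s * t) = c s + c t

/-- The cocycles of `G` with values in `V1`. -/
def CocG (b : G → V1) : Prop :=
  S.TF b ∧ ∀ s t, b (s * t) = b s + S.ac s (b t)

/-- The pair of values at the place `v`. -/
def loc (v : Pl) (c : G → V1) : V1 × V1 := (c (S.sg v), c (S.phi v))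

/-- The pairs of values of the cocycles on `D v` with values in `V1`. -/
def CP (v : Pl) : Set (V1 × V1) :=
  {x | ∃ c : G → V1, S.TFOn (S.D v) c ∧
    (∀ s ∈ S.D v, ∀ t ∈ S.D v, c (s * t) = c s + S.ac s (c t)) ∧ S.loc v c = x}

/-- The pair of values of the coboundary of `z`. -/
def cob (v : Pl) (z : V1) : V1 × V1 := (S.ac (S.sg v) z - z, S.ac (S.phi v) z - z)

/-- Twisted cocycles on the decomposition group at `v` (any twisted cocycle, no local
condition). -/
structure CocD (chi : G → ZMod 2) (v : Pl) (c : G → V) : Prop where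
  tf : S.TFOn (S.D v) c
  coc : ∀ s ∈ S.D v, ∀ t ∈ S.D v, c (s * t) = c s + tw chi s (c t)

/-- `c ∈ Z_v(chi)`: on `D v` the function `c` is a coboundary in `V`. -/
def Zv (chi : G → ZMod 2) (v : Pl) (c : G → V) : Prop := ∃ Q : V, ∀ s ∈ S.D v, c s = dl chi Q s

/-- Selmer cocycles of level `j` for the twist `chi`: cocycles with values in `V[2^j]`
which are coboundaries in `V` on every decomposition group. -/
structure IsSel (chi : G → ZMod 2) (j : ℕ) (Psi : G → V) : Prop where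
  tf : S.TF Psi
  coc : ∀ s t, Psi (s * t) = Psi s + tw chi s (Psi t)
  lev : ∀ s, (2 : ℕ) ^ j • Psi s = 0
  loc : ∀ v, S.Zv chi v Psi

/-- The local Kummer group `W_v(chi)` of the twist at `v`, as a set of pairs of values
(it contains the pairs of the coboundaries). -/
def Wl (chi : G → ZMod 2) (v : Pl) : Set (V1 × V1) :=
  {x | ∃ Q : V, (∀ s ∈ S.D v, (2 : ℕ) • dl chi Q s = 0) ∧
    dl chi Q (S.sg v) = S.iota x.1 ∧ dl chi Q (S.phi v) = S.iota x.2}

/-- The cocycles in the 2-Selmer group. -/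
def IsSel1 (chi : G → ZMod 2) (b : G → V1) : Prop :=
  S.CocG b ∧ ∀ v, S.loc v b ∈ S.Wl chi v

/-- Everything blocks C, D, E, F deliver to G, H, I. -/
structure Ok : Prop where
  top_mem : ⊤ ∈ S.NN
  inf_mem : ∀ N ∈ S.NN, ∀ N' ∈ S.NN, N ⊓ N' ∈ S.NN
  normal : ∀ N ∈ S.NN, N.Normal
  phi_mem : ∀ v, S.phi v ∈ S.D v
  sg_mem : ∀ v, S.sg v ∈ S.D v
  /-- D2: tameness: `D v` is generated by `phi v` and `sg v` modulo every `N` -/
  gen : ∀ v, ∀ N ∈ S.NN, ∀ s ∈ S.D v, ∃ t ∈ Subgroup.closure {S.phi v, S.sg v}, t⁻¹ * s ∈ N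
  /-- D2: the relation `phi sg phi⁻¹ = sg ^ q` modulo every `N` -/
  frob : ∀ v, ∀ N ∈ S.NN, ∃ q : ℕ, Odd q ∧
    (S.sg v ^ q)⁻¹ * (S.phi v * S.sg v * (S.phi v)⁻¹) ∈ N
  fin1 : Finite V1
  /-- the form -/
  e_alt : ∀ w, S.e w w = 0
  e_nondeg : ∀ w, (∀ w', S.e w w' = 0) → w = 0
  e_inv : ∀ s w w', S.e (S.ac s w) (S.ac s w') = S.e w w'
  /-- E1 -/
  iota_inj : Function.Injective S.iota
  iota_range : ∀ Q : V, (2 : ℕ) • Q = 0 → ∃ w, S.iota w = Q
  iota_ac : ∀ (s : G) (w : V1), s • S.iota w = S.iota (S.ac s w)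
  half : ∀ Q : V, ∃ R, (2 : ℕ) • R = Q
  tors : ∀ Q : V, ∃ j : ℕ, (2 : ℕ) ^ j • Q = 0
  act_fin : ∀ j : ℕ, ∃ N ∈ S.NN, ∀ s ∈ N, ∀ Q : V, (2 : ℕ) ^ j • Q = 0 → s • Q = Q
  /-- almost all places are unramified in a given finite extension -/
  unr : ∀ N ∈ S.NN, {v | S.sg v ∉ N}.Finite
  /-- E2 -/
  good_fin : S.goodᶜ.Finite
  good_triv : ∀ v ∈ S.good, ∀ Q : V, S.sg v • Q = Q
  /-- C: the Hasse principle for `H^2(K, V1)` -/
  hasse : ∀ c : G → G → V1, S.TF2 c →
    (∀ s t w, c s t + c (s * t) w = S.ac s (c t w) + c s (t * w)) →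
    (∀ v, ∃ b : G → V1, S.TFOn (S.D v) b ∧
      ∀ s ∈ S.D v, ∀ t ∈ S.D v, c s t = b s + S.ac s (b t) + b (s * t)) →
    ∃ b : G → V1, S.TF b ∧ ∀ s t, c s t = b s + S.ac s (b t) + b (s * t)
  /-- the local pairing is symmetric -/
  sy_comm : ∀ v, ∀ x ∈ S.CP v, ∀ y ∈ S.CP v, S.sy v x y = S.sy v y x
  /-- the coboundaries are in the radical -/
  sy_cob : ∀ v, ∀ x ∈ S.CP v, ∀ z, S.sy v x (S.cob v z) = 0
  /-- the local pairing at a good place when the first cocycle is unramified -/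
  sy_unr : ∀ v ∈ S.good, ∀ x ∈ S.CP v, ∀ y ∈ S.CP v, x.1 = 0 → S.sy v x y = S.e x.2 y.1
  /-- the local pairing at a good place which splits in `K(J[2])` -/
  sy_split : ∀ v ∈ S.good, S.ac (S.phi v) = 1 → ∀ x y : V1 × V1,
    S.sy v x y = S.e x.1 y.2 + S.e x.2 y.1 + S.eps v * S.e x.1 y.1
  /-- F2: reciprocity -/
  recip : ∀ c d : G → V1, S.CocG c → S.CocG d →
    ∑ᶠ v, S.sy v (S.loc v c) (S.loc v d) = 0
  /-- F3: correction (at the good places only; nothing is said at the bad places) -/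
  corr : ∀ w : Pl → V1, {v | w v ≠ 0}.Finite → (∀ v ∈ S.good, S.ac (S.phi v) (w v) = w v) →
    ∃ c : G → V1, S.CocG c ∧ ∀ v ∈ S.good, c (S.sg v) = w v
  /-- F4: duality -/
  dual : ∀ W : Pl → AddSubgroup (V1 × V1), (∀ v, (W v : Set (V1 × V1)) ⊆ S.CP v) →
    (∀ v z, S.cob v z ∈ W v) → (∀ v, Nat.card (W v) = Nat.card V1) →
    (∀ v, ∀ x ∈ W v, ∀ y ∈ W v, S.sy v x y = 0) →
    {v | ¬ ∀ x : V1 × V1, x ∈ W v ↔ x.1 = 0}.Finite →
    ∀ xi : Pl → V1 × V1, (∀ v, xi v ∈ S.CP v) → {v | xi v ∉ W v}.Finite →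
    (∀ b : G → V1, S.CocG b → (∀ v, S.loc v b ∈ W v) →
      ∑ᶠ v, S.sy v (xi v) (S.loc v b) = 0) →
    ∃ om : G → V1, S.CocG om ∧ ∀ v, S.loc v om - xi v ∈ W v
  /-- E3: `chi` runs through all quadratic characters `chi_D` -/
  fin_inv : ∀ chi : G → ZMod 2, S.HomG chi → ∀ v,
    {Q : V | ∀ s ∈ S.D v, dl chi Q s = 0}.Finite
  /-- E4: the Kummer groups are isotropic -/
  isot : ∀ chi : G → ZMod 2, S.HomG chi → ∀ v, ∀ x ∈ S.Wl chi v, ∀ y ∈ S.Wl chi v,
    S.sy v x y = 0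

end Sys

end

end Pool.Agent.SmN
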