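import Pool.Agent.Lib.SmJ.L.JacP
import Pool.Agent.Lib.SmJ.L.StmtW
import Pool.Agent.Lib.MP_48b749_nt.Defs
import Mathlib.FieldTheory.PolynomialGaloisGroup
import Mathlib.RingTheory.Polynomial.Resultant.Basic

/-!
Quadratic twists over global function fields: definitions for the final statements.

`K` is a finitely generated extension of transcendence degree one of a finite field `k`, a `Place k K`
is a discrete valuation ring of `K` with field of fractions `K` which contains `k`. The quadratic
twists of a curve are parametrized by `Kˣ / Kˣ²` and ordered by the degree of the divisor of the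
places which ramify in `K (√ d)`.
-/

set_option autoImplicit false

open Polynomial

namespace Pool.Agent.SmN.Stm

open Pool.Agent.BSDFF (Place)

/-- The group `Kˣ / Kˣ²` of the quadratic twists. -/
abbrev Cls (K : Type) [Field K] : Type := Kˣ ⧸ (powMonoidHom 2 : Kˣ →* Kˣ).range

section

variable (k : Type) {K : Type} [Field k] [Field K] [Algebra k K]

variable {k} in
/-- The order of `d` at `v` is even (`v` is unramified in `K (√ d)`, if `2 ≠ 0`). -/
def EvenAt (v : Place k K) (d : K) : Prop :=
  ∃ x : K, v.ring.valuation d = v.ring.valuation (x ^ 2)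

open scoped Classical in
/-- The degree of the divisor of the places at which the order of `d` is odd. -/
noncomputable def oddDeg (d : K) : ℕ := ∑ᶠ v : Place k K, if EvenAt v d then 0 else v.degree

/-- The classes in `Kˣ / Kˣ²` which contain a `d` with `oddDeg k d ≤ N` and the property `P`. -/
def Twists (N : ℕ) (P : K → Prop) : Set (Cls K) :=
  {c | ∃ d : Kˣ, (d : Cls K) = c ∧ oddDeg k (d : K) ≤ N ∧ P (d : K)}

variable {k} in
/-- The place `v` is a node of `y ^ 2 = f(x)`: `f` has coefficients in the valuation ring of `v` and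
its reduction is `(x - c) ^ 2 h(x)`, `h` separable, `h(c) ≠ 0`. -/
def NodeAt (v : Place k K) (f : K[X]) : Prop :=
  ∃ (F : (v.ring)[X]) (h : (IsLocalRing.ResidueField v.ring)[X])
    (c : IsLocalRing.ResidueField v.ring), F.map (algebraMap v.ring K) = f ∧
    F.map (IsLocalRing.residue v.ring) = (X - C c) ^ 2 * h ∧ h.Separable ∧ h.eval c ≠ 0

/-- The Galois group of `f`, `deg f = 2 g + 1`, is the symmetric group, and the discriminant of `f` is
not a constant times a square; or it is the alternating group and `g ≥ 2`. -/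
def BigGal (f : K[X]) (g : ℕ) : Prop :=
  (Nat.card f.Gal = (2 * g + 1).factorial ∧
    ∀ c s : K, IsAlgebraic k c → f.discr ≠ c * s ^ 2) ∨
  2 ≤ g ∧ 2 * Nat.card f.Gal = (2 * g + 1).factorial

/-- The Selmer groups of `V = J[2 ^ ∞]` and of `W = V ⊗ Z[ε] / ε ^ 2` have the same corank `r ≤ 1`, `J`
the Jacobian of `y ^ 2 = f(x)`. -/
def OrdJ (f : K[X]) [SmJ.R.OddDeg f] : Prop :=
  SmJ.L.OrdOn k (SmJ.R.galP (SeparableClosure K) f)

end

/-- The quadratic twist by `d` of the curve `y ^ 2 = x ^ 3 + A x + B`. -/
def crv {K : Type} [Field K] (A B d : K) : WeierstrassCurve K := ⟨0, 0, 0, A * d ^ 2, B * d ^ 3⟩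

instance {K : Type} [Field K] (f : K[X]) [SmJ.R.OddDeg f] (d : K) :
    SmJ.R.OddDeg (f.scaleRoots d) := ⟨by
  rw [natDegree_scaleRoots]
  exact SmJ.R.OddDeg.odd⟩

end Pool.Agent.SmN.Stm
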