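import Pool.Agent.Lib.SmN.Stm

/-!
Quadratic twists over global function fields: nodes and densities of sets of twists.
-/

set_option autoImplicit false

open Polynomial

namespace Pool.Agent.SmN.Stm

open Pool.Agent.BSDFF (Place)

/-- The curve `y ^ 2 = F(x)` over a local ring has a node: the reduction of `F` is `(x - c) ^ 2 h(x)`,
`h` separable, `h(c) ≠ 0`. -/
def IsNode {R : Type} [CommRing R] [IsLocalRing R] (F : R[X]) : Prop :=
  ∃ (h : (IsLocalRing.ResidueField R)[X]) (c : IsLocalRing.ResidueField R),
    F.map (IsLocalRing.residue R) = (X - C c) ^ 2 * h ∧ h.Separable ∧ h.eval c ≠ 0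

variable (k : Type) {K : Type} [Field k] [Field K] [Algebra k K]

variable {k} in
/-- The place `v` is a node of `y ^ 2 = f(x)`: `f` has coefficients in the valuation ring of `v` and
its reduction is `(x - c) ^ 2 h(x)`, `h` separable, `h(c) ≠ 0`. -/
def Node (v : Place k K) (f : K[X]) : Prop :=
  ∃ F : (v.ring)[X], F.map (algebraMap v.ring K) = f ∧ IsNode F

variable {k} in
theorem Node.nodeAt {v : Place k K} {f : K[X]} (h : Node v f) : NodeAt v f := by
  obtain ⟨F, h1, h, c, h2⟩ := h
  exact ⟨F, h, c, h1, h2⟩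

/-- The number of twists `d` of degree at most `N` with the property `P`. -/
noncomputable def num (N : ℕ) (P : K → Prop) : ℝ := ((Twists k N P).ncard : ℝ)

/-- For every `ε > 0` there is a `j` such that for all large `N` the property `P j` holds for all
twists of degree at most `N` but at most `ε` times their number. -/
def AlmostAll (P : ℕ → K → Prop) : Prop :=
  ∀ ε : ℝ, 0 < ε → ∃ j N₀ : ℕ, ∀ N ≥ N₀,
    num k N (fun d : K => ¬ P j d) ≤ ε * num k N (fun _ : K => True)

/-- The twists with the property `F` have positive lower density. -/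
def PosShare (F : K → Prop) : Prop :=
  ∃ δ : ℝ, 0 < δ ∧ ∃ N₀ : ℕ, ∀ N ≥ N₀, δ * num k N (fun _ : K => True) ≤ num k N F

/-- One half of the twists with the property `F` have the property `P`: for every `ε > 0` and all
large `N` their number differs from one half of the number of the twists of degree at most `N` with
the property `F` by at most `ε` times this number. -/
def Half (F P : K → Prop) : Prop :=
  ∀ ε : ℝ, 0 < ε → ∃ N₀ : ℕ, ∀ N ≥ N₀,
    |num k N (fun d : K => F d ∧ P d) - num k N F / 2| ≤ ε * num k N F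

/-- The twists with the property `F` have positive lower density, one half of them have the
property `P` and one half of them have the property `Q`. -/
def Halves (F P Q : K → Prop) : Prop := PosShare k F ∧ Half k F P ∧ Half k F Q

theorem halves_of {F P Q : K → Prop}
    (h : ∃ δ : ℝ, 0 < δ ∧ ∀ ε : ℝ, 0 < ε → ∃ N₀ : ℕ, ∀ N ≥ N₀,
      δ * (Twists k N fun _ : K => True).ncard ≤ (Twists k N F).ncard ∧
      |((Twists k N fun d : K => F d ∧ P d).ncard : ℝ) - (Twists k N F).ncard / 2| ≤
        ε * (Twists k N F).ncard ∧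
      |((Twists k N fun d : K => F d ∧ Q d).ncard : ℝ) - (Twists k N F).ncard / 2| ≤
        ε * (Twists k N F).ncard) : Halves k F P Q := by
  obtain ⟨δ, hδ, h⟩ := h
  refine ⟨?_, fun ε hε => ?_, fun ε hε => ?_⟩
  · obtain ⟨N₀, h1⟩ := h 1 one_pos
    exact ⟨δ, hδ, N₀, fun N hN => (h1 N hN).1⟩
  · obtain ⟨N₀, h1⟩ := h ε hε
    exact ⟨N₀, fun N hN => (h1 N hN).2.1⟩
  · obtain ⟨N₀, h1⟩ := h ε hε
    exact ⟨N₀, fun N hN => (h1 N hN).2.2⟩

end Pool.Agent.SmN.Stm
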